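import Pool.Agent.Helper36.CV.StmtsO

set_option autoImplicit false

namespace Pool.Agent.Helper36.CV

open Filter Topology Pointwise

theorem f2_X (l E : ℝ) (n : ℕ) :
    (X (-l) n (-E) = X l n E ∧ X (-l) (n + 1) (-E) = - X l (n + 1) E ∧
      X (-l) (n + 2) (-E) = - X l (n + 2) E) ∨
    (X (-l) n (-E) = - X l n E ∧ X (-l) (n + 1) (-E) = - X l (n + 1) E ∧
      X (-l) (n + 2) (-E) = X l (n + 2) E) ∨
    (X (-l) n (-E) = - X l n E ∧ X (-l) (n + 1) (-E) = X l (n + 1) E ∧
      X (-l) (n + 2) (-E) = - X l (n + 2) E) := by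
  induction n with
  | zero =>
    left
    refine ⟨rfl, ?_, ?_⟩
    · show -E / 2 = -(E / 2)
      ring
    · show (-E - -l) / 2 = -((E - l) / 2)
      ring
  | succ n ih =>
    have h1 : X (-l) (n + 1 + 2) (-E) =
        2 * X (-l) (n + 2) (-E) * X (-l) (n + 1) (-E) - X (-l) n (-E) := rfl
    have h2 : X l (n + 1 + 2) E = 2 * X l (n + 2) E * X l (n + 1) E - X l n E := rfl
    rcases ih with ⟨ha, hb, hc⟩ | ⟨ha, hb, hc⟩ | ⟨ha, hb, hc⟩
    · right
      left
      refine ⟨hb, hc, ?_⟩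
      rw [h1, h2, ha, hb, hc]
      ring
    · right
      right
      refine ⟨hb, hc, ?_⟩
      rw [h1, h2, ha, hb, hc]
      ring
    · left
      refine ⟨hb, hc, ?_⟩
      rw [h1, h2, ha, hb, hc]
      ring

theorem f2_abs (l E : ℝ) (n : ℕ) : |X (-l) n (-E)| = |X l n E| := by
  rcases f2_X l E n with ⟨h, -, -⟩ | ⟨h, -, -⟩ | ⟨h, -, -⟩
  · rw [h]
  · rw [h, abs_neg]
  · rw [h, abs_neg]

theorem st_F2 : ST_F2 := by
  refine ⟨?_, ?_, ?_⟩
  · intro S hS e he hδ η hη
    obtain ⟨δ, hδ0, hδ1⟩ := hδ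
    have h1 : -e ∈ -S := by
      rw [Set.mem_neg, neg_neg]
      exact he
    obtain ⟨y, hy, hyS⟩ := hS (-e) h1 ⟨δ, hδ0, fun y hy hyS =>
      hδ1 (-y) ⟨by linarith [hy.2], by linarith [hy.1]⟩ (Set.mem_neg.1 hyS)⟩ η hη
    refine ⟨-y, ⟨by linarith [hy.2], by linarith [hy.1]⟩, ?_⟩
    intro h
    exact hyS (Set.mem_neg.2 h)
  · intro l
    ext E
    rw [Set.mem_neg]
    constructor
    · intro h n
      have h1 := h n
      have h2 : ∀ n, |X (-l) n E| = |X l n (-E)| := by
        intro n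
        have h3 := f2_abs l (-E) n
        rw [neg_neg] at h3
        exact h3
      rw [h2, h2]
      exact h1
    · intro h n
      have h1 := h n
      have h2 : ∀ n, |X (-l) n E| = |X l n (-E)| := by
        intro n
        have h3 := f2_abs l (-E) n
        rw [neg_neg] at h3
        exact h3
      rw [h2, h2] at h1
      exact h1
  · intro C K
    exact neg_add C K

end Pool.Agent.Helper36.CV
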