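import Pool.Agent.Helper36.CV.StmtsK

set_option autoImplicit false

namespace Pool.Agent.Helper36.CV

open Filter Topology

theorem k6_lip (f : ℂ → ℂ) (a : ℂ) (M : ℝ)
    (hf : DifferentiableOn ℂ f (Metric.ball (0 : ℂ) 2))
    (hM : ∀ z ∈ Metric.ball (0 : ℂ) 2, ‖f z - a‖ ≤ M) (z1 z2 : ℂ) (h1 : ‖z1‖ ≤ 3 / 4)
    (h2 : ‖z2‖ ≤ 3 / 4) : ‖f z1 - f z2‖ ≤ M * ‖z1 - z2‖ := by
  have hg : ∀ x ∈ Metric.closedBall (0 : ℂ) (3 / 4), DifferentiableAt ℂ (fun z => f z - a) x := by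
    intro x hx
    have hx2 : x ∈ Metric.ball (0 : ℂ) 2 := by
      rw [mem_closedBall_zero_iff] at hx
      rw [mem_ball_zero_iff]
      linarith
    exact ((hf x hx2).differentiableAt (Metric.isOpen_ball.mem_nhds hx2)).sub_const a
  have hb : ∀ x ∈ Metric.closedBall (0 : ℂ) (3 / 4), ‖deriv (fun z => f z - a) x‖ ≤ M := by
    intro x hx
    rw [mem_closedBall_zero_iff] at hx
    have hsub : Metric.closedBall x 1 ⊆ Metric.ball (0 : ℂ) 2 := by
      intro y hy
      rw [Metric.mem_closedBall, dist_eq_norm] at hy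
      rw [mem_ball_zero_iff]
      have h3 : ‖y‖ ≤ ‖y - x‖ + ‖x‖ := by
        have h4 := norm_add_le (y - x) x
        rwa [sub_add_cancel] at h4
      linarith
    have hd : DiffContOnCl ℂ (fun z => f z - a) (Metric.ball x 1) := by
      have h5 : DifferentiableOn ℂ (fun z => f z - a) (closure (Metric.ball x 1)) := by
        rw [closure_ball x one_ne_zero]
        exact (hf.mono hsub).sub_const a
      exact h5.diffContOnCl
    have h6 := Complex.norm_deriv_le_of_forall_mem_sphere_norm_le (c := x) (R := 1) (C := M)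
      zero_lt_one hd (fun z hz => hM z (hsub (Metric.sphere_subset_closedBall hz)))
    rw [div_one] at h6
    exact h6
  have h7 := Convex.norm_image_sub_le_of_norm_deriv_le hg hb (convex_closedBall (0 : ℂ) (3 / 4))
    (mem_closedBall_zero_iff.2 h2) (mem_closedBall_zero_iff.2 h1)
  have h8 : f z1 - a - (f z2 - a) = f z1 - f z2 := by ring
  rw [h8] at h7
  exact h7

/-- iterates -/
noncomputable def k6_a (F : Wd → ℂ → ℂ → ℂ) (g : Wd → Wd) : ℕ → Wd → ℂ → ℂ
  | 0, _, _ => 0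
  | (n + 1), w, l => F w l (k6_a F g n (g w) l)

theorem k6_fix (L0 : ℝ) (hL0 : 16 ≤ L0) (F : Wd → ℂ → ℂ → ℂ) (g : Wd → Wd) (r : Wd → ℝ)
    (hr : ∀ w, r w = 1 ∨ r w = -1)
    (hF : ∀ w, DifferentiableOn ℂ (fun p : ℂ × ℂ => F w p.1 p.2) (Dom L0))
    (hre : ∀ w, ∀ l z : ℝ, ((l : ℂ), (z : ℂ)) ∈ Dom L0 → (F w l z).im = 0)
    (hz : ∀ w, ∀ l z : ℂ, (l, z) ∈ Dom L0 → ‖F w l z - r w / 2‖ ≤ 4 / ‖l‖) :
    ∃ a : Wd → ℂ → ℂ, (∀ w, DifferentiableOn ℂ (a w) (Om2 L0)) ∧
      (∀ w, ∀ l : ℝ, (l : ℂ) ∈ Om2 L0 → (a w l).im = 0) ∧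
      (∀ w, ∀ l ∈ Om2 L0, ‖a w l‖ ≤ 3 / 4) ∧
      (∀ w, ∀ l ∈ Om2 L0, a w l = F w l (a (g w) l)) := by
  have hOm : IsOpen (Om2 L0) := by
    have h1 : Om2 L0 = {l : ℂ | L0 < ‖l‖} ∩ {l : ℂ | ‖l‖ < 2 * l.re} := rfl
    rw [h1]
    exact (isOpen_lt continuous_const continuous_norm).inter
      (isOpen_lt continuous_norm (continuous_const.mul Complex.continuous_re))
  have hq : ∀ l ∈ Om2 L0, 4 / ‖l‖ ≤ 1 / 4 := by
    intro l hl
    have h1 : L0 < ‖l‖ := hl.1
    rw [div_le_iff₀ (by linarith)]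
    linarith
  have hb : ∀ w, ∀ l z : ℂ, (l, z) ∈ Dom L0 → ‖F w l z‖ ≤ 3 / 4 := by
    intro w l z hlz
    have h1 := hz w l z hlz
    have h2 := hq l hlz.1
    have h3 : ‖((r w : ℂ)) / 2‖ ≤ 1 / 2 := by
      rcases hr w with h | h
      · rw [h]
        norm_num
      · rw [h]
        norm_num
    have h4 : ‖F w l z‖ ≤ ‖F w l z - r w / 2‖ + ‖((r w : ℂ)) / 2‖ := by
      have h5 := norm_add_le (F w l z - r w / 2) (r w / 2)
      rwa [sub_add_cancel] at h5
    linarith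
  have ha : ∀ n w, ∀ l ∈ Om2 L0, ‖k6_a F g n w l‖ ≤ 3 / 4 := by
    intro n
    induction n with
    | zero =>
      intro w l hl
      show ‖(0 : ℂ)‖ ≤ 3 / 4
      rw [norm_zero]
      norm_num
    | succ n ih =>
      intro w l hl
      refine hb w l _ ⟨hl, ?_⟩
      exact lt_of_le_of_lt (ih (g w) l hl) (by norm_num)
  have hdom : ∀ n w, ∀ l ∈ Om2 L0, (l, k6_a F g n w l) ∈ Dom L0 := by
    intro n w l hl
    exact ⟨hl, lt_of_le_of_lt (ha n w l hl) (by norm_num)⟩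
  have hslice : ∀ w, ∀ l ∈ Om2 L0, DifferentiableOn ℂ (F w l) (Metric.ball (0 : ℂ) 2) := by
    intro w l hl
    have h1 : DifferentiableOn ℂ ((fun p : ℂ × ℂ => F w p.1 p.2) ∘ (fun z : ℂ => (l, z)))
        (Metric.ball (0 : ℂ) 2) := by
      refine (hF w).comp ?_ ?_
      · exact (differentiableOn_const l).prodMk differentiableOn_id
      · intro z hz'
        rw [mem_ball_zero_iff] at hz'
        exact ⟨hl, hz'⟩
    exact h1
  have hlip : ∀ w, ∀ l ∈ Om2 L0, ∀ z1 z2 : ℂ, ‖z1‖ ≤ 3 / 4 → ‖z2‖ ≤ 3 / 4 →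
      ‖F w l z1 - F w l z2‖ ≤ 1 / 4 * ‖z1 - z2‖ := by
    intro w l hl z1 z2 h1 h2
    refine k6_lip (F w l) (r w / 2) (1 / 4) (hslice w l hl) ?_ z1 z2 h1 h2
    intro z hz'
    rw [mem_ball_zero_iff] at hz'
    exact (hz w l z ⟨hl, hz'⟩).trans (hq l hl)
  have hdiff : ∀ n w, ∀ l ∈ Om2 L0,
      ‖k6_a F g (n + 1) w l - k6_a F g n w l‖ ≤ 3 / 4 * (1 / 4) ^ n := by
    intro n
    induction n with
    | zero =>
      intro w l hl
      have h1 : k6_a F g 0 w l = 0 := rfl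
      rw [h1, sub_zero, pow_zero, mul_one]
      exact ha 1 w l hl
    | succ n ih =>
      intro w l hl
      have h1 := hlip w l hl (k6_a F g (n + 1) (g w) l) (k6_a F g n (g w) l)
        (ha (n + 1) (g w) l hl) (ha n (g w) l hl)
      have h2 := ih (g w) l hl
      have h3 : k6_a F g (n + 1 + 1) w l = F w l (k6_a F g (n + 1) (g w) l) := rfl
      have h4 : k6_a F g (n + 1) w l = F w l (k6_a F g n (g w) l) := rfl
      rw [h3, h4]
      refine h1.trans ?_
      rw [pow_succ]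
      linarith
  have hdan : ∀ n w, DifferentiableOn ℂ (k6_a F g n w) (Om2 L0) := by
    intro n
    induction n with
    | zero =>
      intro w
      exact differentiableOn_const (0 : ℂ)
    | succ n ih =>
      intro w
      have h1 : DifferentiableOn ℂ ((fun p : ℂ × ℂ => F w p.1 p.2) ∘
          (fun l : ℂ => (l, k6_a F g n (g w) l))) (Om2 L0) := by
        refine (hF w).comp ?_ ?_
        · exact differentiableOn_id.prodMk (ih (g w))
        · intro l hl
          exact hdom n (g w) l hl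
      exact h1
  have hsum : Summable fun n : ℕ => (3 : ℝ) / 4 * (1 / 4) ^ n :=
    (summable_geometric_of_lt_one (by norm_num) (by norm_num)).mul_left _
  set a : Wd → ℂ → ℂ := fun w l => ∑' n : ℕ, (k6_a F g (n + 1) w l - k6_a F g n w l) with hadef
  have htend : ∀ w, ∀ l ∈ Om2 L0, Tendsto (fun n => k6_a F g n w l) atTop (𝓝 (a w l)) := by
    intro w l hl
    have h1 : Summable fun n : ℕ => (k6_a F g (n + 1) w l - k6_a F g n w l) :=
      Summable.of_norm_bounded hsum (fun n => hdiff n w l hl)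
    have h2 := h1.hasSum.tendsto_sum_nat
    have h3 : (fun n => ∑ i ∈ Finset.range n, (k6_a F g (i + 1) w l - k6_a F g i w l)) =
        fun n => k6_a F g n w l := by
      funext n
      rw [Finset.sum_range_sub (fun n => k6_a F g n w l)]
      show k6_a F g n w l - 0 = _
      rw [sub_zero]
    rw [h3] at h2
    exact h2
  have hanorm : ∀ w, ∀ l ∈ Om2 L0, ‖a w l‖ ≤ 3 / 4 := by
    intro w l hl
    exact le_of_tendsto (htend w l hl).norm (Eventually.of_forall fun n => ha n w l hl)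
  refine ⟨a, ?_, ?_, hanorm, ?_⟩
  · intro w
    exact Complex.differentiableOn_tsum_of_summable_norm hsum
      (fun n => (hdan (n + 1) w).sub (hdan n w)) hOm (fun n l hl => hdiff n w l hl)
  · intro w l hl
    have h1 : ∀ n w, (k6_a F g n w (l : ℂ)).im = 0 := by
      intro n
      induction n with
      | zero =>
        intro w
        exact Complex.zero_im
      | succ n ih =>
        intro w
        have h2 : k6_a F g n (g w) (l : ℂ) = (((k6_a F g n (g w) (l : ℂ)).re : ℝ) : ℂ) := by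
          apply Complex.ext
          · rw [Complex.ofReal_re]
          · rw [ih (g w), Complex.ofReal_im]
        have h3 : k6_a F g (n + 1) w (l : ℂ) = F w (l : ℂ) (k6_a F g n (g w) (l : ℂ)) := rfl
        have h4 := hdom n (g w) (l : ℂ) hl
        rw [h2] at h4
        rw [h3, h2]
        exact hre w l _ h4
    have h5 : Tendsto (fun n => (k6_a F g n w (l : ℂ)).im) atTop (𝓝 ((a w (l : ℂ)).im)) :=
      (Complex.continuous_im.tendsto _).comp (htend w l hl)
    have h6 : (fun n => (k6_a F g n w (l : ℂ)).im) = fun _ => (0 : ℝ) := by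
      funext n
      exact h1 n w
    rw [h6] at h5
    exact tendsto_nhds_unique h5 tendsto_const_nhds
  · intro w l hl
    have h1 : Tendsto (fun n => k6_a F g (n + 1) w l) atTop (𝓝 (a w l)) :=
      (htend w l hl).comp (tendsto_add_atTop_nat 1)
    have hmem : a (g w) l ∈ Metric.ball (0 : ℂ) 2 := by
      rw [mem_ball_zero_iff]
      exact lt_of_le_of_lt (hanorm (g w) l hl) (by norm_num)
    have h2 : ContinuousAt (F w l) (a (g w) l) :=
      ((hslice w l hl) _ hmem).differentiableAt (Metric.isOpen_ball.mem_nhds hmem) |>.continuousAt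
    have h3 : Tendsto (fun n => F w l (k6_a F g n (g w) l)) atTop (𝓝 (F w l (a (g w) l))) :=
      h2.tendsto.comp (htend (g w) l hl)
    exact tendsto_nhds_unique h1 h3

theorem st_K6 : ST_K6 := by
  intro c hc
  refine ⟨2 * c + 4, 16, by linarith, by norm_num, ?_⟩
  intro L0 hL0 T
  have hoo : ∀ w, T.oo w = 1 ∨ T.oo w = -1 := fun w => (T.sta w).oo
  have hss : ∀ w, T.ss w = 1 ∨ T.ss w = -1 := fun w => (T.sta w).ss
  obtain ⟨zl, hl1, hl2, hl3, hl4⟩ := k6_fix L0 hL0 (T.zz 0) (ch 0) (fun w => -T.oo w)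
    (fun w => by
      rcases hoo w with h | h
      · right; rw [h]
      · left; rw [h]; norm_num)
    (fun w => (T.ch0 w).sta.an_u) (fun w => (T.ch0 w).sta.re_u) (fun w => (T.ch0 w).z2)
  obtain ⟨zh, hh1, hh2, hh3, hh4⟩ := k6_fix L0 hL0 (T.zz 2) (ch 2) (fun w => T.oo w)
    hoo
    (fun w => (T.ch2 w).sta.an_u) (fun w => (T.ch2 w).sta.re_u) (fun w => (T.ch2 w).z2)
  -- the asymptotics, general form
  have hasym : ∀ (o s t : ℝ) (r : ℝ) (l z u ζ : ℂ), (s = 1 ∨ s = -1) →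
      (r = 1 ∨ r = -1) → 16 ≤ ‖l‖ → ‖ζ - (r / 2 + s * (r * z + u) / (2 * l))‖ ≤ c / ‖l‖ ^ 2 →
      ‖z - s / 2‖ ≤ 4 / ‖l‖ → ‖u - t * s * o / 2‖ ≤ c / ‖l‖ →
      ‖ζ - (r / 2 + (r + t * o) / (4 * l))‖ ≤ (2 * c + 4) / ‖l‖ ^ 2 := by
    intro o s t r l z u ζ hs hr hl h1 h2 h3
    have hlpos : 0 < ‖l‖ := by linarith
    have hl0 : l ≠ 0 := norm_pos_iff.1 hlpos
    have hs2 : (s : ℂ) * s = 1 := by
      rcases hs with h | h
      · rw [h]; norm_num
      · rw [h]; norm_num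
    have e1 : ζ - (r / 2 + (r + t * o) / (4 * l)) =
        (ζ - (r / 2 + s * (r * z + u) / (2 * l))) +
          (s * (r * (z - s / 2) + (u - t * s * o / 2)) / (2 * l)) := by
      have e2 : (s : ℂ) * (r * (z - s / 2) + (u - t * s * o / 2)) =
          s * (r * z + u) - (r + t * o) / 2 := by
        linear_combination (-(r : ℂ) / 2 - t * o / 2) * hs2
      rw [e2]
      field_simp
      ring
    rw [e1]
    have hns : ‖(s : ℂ)‖ = 1 := by
      rcases hs with h | h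
      · rw [h]; norm_num
      · rw [h]; norm_num
    have hnr : ‖(r : ℂ)‖ = 1 := by
      rcases hr with h | h
      · rw [h]; norm_num
      · rw [h]; norm_num
    have h4 : ‖(s : ℂ) * (r * (z - s / 2) + (u - t * s * o / 2)) / (2 * l)‖ ≤
        (4 + c) / ‖l‖ / (2 * ‖l‖) := by
      rw [norm_div, norm_mul, norm_mul, hns, one_mul]
      have h5 : ‖(2 : ℂ)‖ = 2 := by norm_num
      rw [h5]
      refine div_le_div_of_nonneg_right ?_ (by positivity)
      refine (norm_add_le _ _).trans ?_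
      rw [norm_mul, hnr, one_mul, add_div]
      exact add_le_add h2 h3
    refine (norm_add_le _ _).trans ((add_le_add h1 h4).trans ?_)
    have h6 : (4 + c) / ‖l‖ / (2 * ‖l‖) = (2 + c / 2) / ‖l‖ ^ 2 := by
      field_simp
      ring
    rw [h6, ← add_div]
    refine div_le_div_of_nonneg_right ?_ (by positivity)
    linarith
  have ho0 : ∀ w, T.oo (ch 0 w) = -T.ss w := by
    intro w
    have h1 := T.o0 0 w
    rw [if_neg (by decide)] at h1
    rw [h1]
    norm_num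
  have ho2 : ∀ w, T.oo (ch 2 w) = T.ss w := by
    intro w
    have h1 := T.o0 2 w
    rw [if_neg (by decide)] at h1
    rw [h1]
    norm_num
  refine ⟨⟨zl, zh, hl1, hh1, hl2, hh2, hl3, hh3, hl4, hh4, ?_, ?_⟩⟩
  · intro w l hl
    have hl16 : 16 ≤ ‖l‖ := by
      have h1 : L0 < ‖l‖ := hl.1
      linarith
    have hlpos : 0 < ‖l‖ := by linarith
    have hl0 : l ≠ 0 := norm_pos_iff.1 hlpos
    have hd1 : (l, zl (ch 0 w) l) ∈ Dom L0 :=
      ⟨hl, lt_of_le_of_lt (hl3 (ch 0 w) l hl) (by norm_num)⟩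
    have hd2 : (l, zl (ch 0 (ch 0 w)) l) ∈ Dom L0 :=
      ⟨hl, lt_of_le_of_lt (hl3 (ch 0 (ch 0 w)) l hl) (by norm_num)⟩
    have hd0 : (l, (0 : ℂ)) ∈ Dom L0 := ⟨hl, by
      show ‖(0 : ℂ)‖ < 2
      rw [norm_zero]
      norm_num⟩
    have h1 := (T.ch0 w).z1 l _ hd1
    rw [← hl4 w l hl] at h1
    have h2 := (T.ch0 (ch 0 w)).z2 l _ hd2
    rw [← hl4 (ch 0 w) l hl, ho0 w, neg_neg] at h2
    have h3 := (T.sta w).u1 l 0 hd0
    have h4 := hasym (T.oo w) (T.ss w) (ty w) (-T.oo w) l (zl (ch 0 w) l) (T.uu w l 0) (zl w l)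
      (hss w) (by
        rcases hoo w with h | h
        · right; rw [h]
        · left; rw [h]; norm_num) hl16 h1 h2 h3
    have e1 : zl w l + T.oo w / 2 * (1 + 1 / (2 * l) - ty w / (2 * l)) =
        zl w l - (((-T.oo w : ℝ) : ℂ) / 2 + (((-T.oo w : ℝ) : ℂ) + ty w * T.oo w) / (4 * l)) := by
      push_cast
      field_simp
      ring
    rw [e1]
    exact h4
  · intro w l hl
    have hl16 : 16 ≤ ‖l‖ := by
      have h1 : L0 < ‖l‖ := hl.1
      linarith
    have hlpos : 0 < ‖l‖ := by linarith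
    have hl0 : l ≠ 0 := norm_pos_iff.1 hlpos
    have hd1 : (l, zh (ch 2 w) l) ∈ Dom L0 :=
      ⟨hl, lt_of_le_of_lt (hh3 (ch 2 w) l hl) (by norm_num)⟩
    have hd2 : (l, zh (ch 2 (ch 2 w)) l) ∈ Dom L0 :=
      ⟨hl, lt_of_le_of_lt (hh3 (ch 2 (ch 2 w)) l hl) (by norm_num)⟩
    have hd0 : (l, (0 : ℂ)) ∈ Dom L0 := ⟨hl, by
      show ‖(0 : ℂ)‖ < 2
      rw [norm_zero]
      norm_num⟩
    have h1 := (T.ch2 w).z1 l _ hd1
    rw [← hh4 w l hl] at h1
    have h2 := (T.ch2 (ch 2 w)).z2 l _ hd2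
    rw [← hh4 (ch 2 w) l hl, ho2 w] at h2
    have h3 := (T.sta w).u1 l 0 hd0
    have h4 := hasym (T.oo w) (T.ss w) (ty w) (T.oo w) l (zh (ch 2 w) l) (T.uu w l 0) (zh w l)
      (hss w) (hoo w) hl16 h1 h2 h3
    have e1 : zh w l - T.oo w / 2 * (1 + 1 / (2 * l) + ty w / (2 * l)) =
        zh w l - (((T.oo w : ℝ) : ℂ) / 2 + (((T.oo w : ℝ) : ℂ) + ty w * T.oo w) / (4 * l)) := by
      field_simp
      ring
    rw [e1]
    exact h4

end Pool.Agent.Helper36.CV
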