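import Pool.Agent.Helper55.CV.W2c

set_option autoImplicit false

/-!
Module W2: the analytic functions `f_n`.
-/

namespace Pool.Agent.Helper36.CV

open Complex Filter Topology

noncomputable section

variable {l : ℝ} {n : ℕ}

theorem w2_inv : Tendsto (fun z : ℂ => z⁻¹) (cocompact ℂ) (𝓝 0) := by
  rw [← Metric.cobounded_eq_cocompact]
  exact Filter.tendsto_inv₀_cobounded

theorem w2_ne0 : ∀ᶠ z : ℂ in cocompact ℂ, z ≠ 0 :=
  (isCompact_singleton (x := (0 : ℂ))).compl_mem_cocompact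

theorem w2_pinv {k : ℕ} (hk : k ≠ 0) : Tendsto (fun z : ℂ => (z ^ k)⁻¹) (cocompact ℂ) (𝓝 0) := by
  have h := w2_inv.pow k
  rw [zero_pow hk] at h
  refine h.congr fun z => ?_
  rw [inv_pow]

theorem w2_lead (l : ℝ) : ∀ n, Tendsto (fun z : ℂ => XC l n z / z ^ Nat.fib n) (cocompact ℂ)
    (𝓝 (if n = 0 then 1 else 1 / 2)) := by
  intro n
  induction n using Nat.strong_induction_on with
  | _ n ih =>
    match n, ih with
    | 0, _ =>
      rw [if_pos rfl]
      refine tendsto_const_nhds.congr fun z => ?_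
      rw [Nat.fib_zero, pow_zero, div_one]
      rfl
    | 1, _ =>
      rw [if_neg one_ne_zero]
      refine (tendsto_const_nhds (x := (1 / 2 : ℂ))).congr' ?_
      filter_upwards [w2_ne0] with z hz
      rw [Nat.fib_one, pow_one]
      show 1 / 2 = z / 2 / z
      field_simp
    | 2, _ =>
      rw [if_neg two_ne_zero]
      have h1 : Tendsto (fun z : ℂ => 1 / 2 - (l : ℂ) / 2 * z⁻¹) (cocompact ℂ)
          (𝓝 (1 / 2 - (l : ℂ) / 2 * 0)) := tendsto_const_nhds.sub (w2_inv.const_mul _)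
      rw [mul_zero, sub_zero] at h1
      refine h1.congr' ?_
      filter_upwards [w2_ne0] with z hz
      rw [Nat.fib_two, pow_one]
      show 1 / 2 - (l : ℂ) / 2 * z⁻¹ = (z - l) / 2 / z
      field_simp
    | (m + 3), ih =>
      have h2 := ih (m + 2) (by omega)
      have h1 := ih (m + 1) (by omega)
      have h0 := ih m (by omega)
      rw [if_neg (by omega)] at h2 h1 ⊢
      have hF : Nat.fib (m + 3) = Nat.fib (m + 2) + Nat.fib (m + 1) := by
        have h7 : Nat.fib (m + 3) = Nat.fib (m + 1) + Nat.fib (m + 2) := Nat.fib_add_two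
        omega
      have hF' : Nat.fib (m + 3) = Nat.fib m + (Nat.fib (m + 1) + Nat.fib (m + 1)) := by
        have h7 : Nat.fib (m + 2) = Nat.fib m + Nat.fib (m + 1) := Nat.fib_add_two
        omega
      have hpos : Nat.fib (m + 1) + Nat.fib (m + 1) ≠ 0 := by
        have h7 : 0 < Nat.fib (m + 1) := Nat.fib_pos.2 (Nat.succ_pos m)
        omega
      have h3 := ((h2.const_mul 2).mul h1).sub (h0.mul (w2_pinv hpos))
      rw [mul_zero, sub_zero] at h3
      have e : (2 : ℂ) * (1 / 2) * (1 / 2) = 1 / 2 := by norm_num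
      rw [e] at h3
      refine h3.congr' ?_
      filter_upwards [w2_ne0] with z hz
      have hrec : XC l (m + 3) z = 2 * XC l (m + 2) z * XC l (m + 1) z - XC l m z := rfl
      rw [hrec, sub_div]
      congr 1
      · rw [hF, pow_add]
        field_simp
      · rw [hF', pow_add z (Nat.fib m) (Nat.fib (m + 1) + Nat.fib (m + 1)), ← div_div,
          div_eq_mul_inv (XC l m z / z ^ Nat.fib m)]

theorem w2_lead' (hn : 1 ≤ n) : Tendsto (fun z : ℂ => XC l n z / z ^ Nat.fib n) (cocompact ℂ)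
    (𝓝 (1 / 2)) := by
  have := w2_lead l n
  rwa [if_neg (by omega)] at this

theorem w2_XCinv (hn : 1 ≤ n) : Tendsto (fun z : ℂ => (XC l n z)⁻¹) (cocompact ℂ) (𝓝 0) := by
  have h1 := (w2_lead' (l := l) hn).inv₀ (by norm_num)
  have hF : Nat.fib n ≠ 0 := by
    have := Nat.fib_pos.2 hn
    omega
  have h2 := h1.mul (w2_pinv hF)
  rw [mul_zero] at h2
  refine h2.congr' ?_
  filter_upwards [w2_ne0] with z hz
  have : z ^ Nat.fib n ≠ 0 := pow_ne_zero _ hz
  rw [inv_div]
  field_simp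

theorem w2_XCne (hn : 1 ≤ n) : ∀ᶠ z : ℂ in cocompact ℂ, XC l n z ≠ 0 := by
  have h1 : ∀ᶠ z : ℂ in cocompact ℂ, XC l n z / z ^ Nat.fib n ≠ 0 :=
    (w2_lead' (l := l) hn).eventually_ne (by norm_num)
  filter_upwards [h1] with z hz h0
  apply hz
  rw [h0, zero_div]

theorem w2_Jlead (hn : 1 ≤ n) : Tendsto (fun z : ℂ => w2_J (XC l n z) / z ^ Nat.fib n)
    (cocompact ℂ) (𝓝 1) := by
  have h1 : Tendsto (fun z : ℂ => 1 - (XC l n z ^ 2)⁻¹) (cocompact ℂ) (𝓝 1) := by
    have h2 := (w2_XCinv (l := l) hn).pow 2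
    rw [zero_pow two_ne_zero] at h2
    have h3 := (tendsto_const_nhds (x := (1 : ℂ))).sub h2
    rw [sub_zero] at h3
    refine h3.congr fun z => ?_
    rw [inv_pow]
  have hq : w2_q 1 = 1 := by
    unfold w2_q
    rw [Complex.log_one, zero_div, Complex.exp_zero]
  have h4 : Tendsto (fun z : ℂ => w2_q (1 - (XC l n z ^ 2)⁻¹)) (cocompact ℂ) (𝓝 1) := by
    have h5 : ContinuousAt w2_q 1 := (w2_q_diff Complex.one_mem_slitPlane).continuousAt
    have h6 := h5.tendsto
    rw [hq] at h6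
    exact h6.comp h1
  have h7 := (w2_lead' (l := l) hn).mul ((tendsto_const_nhds (x := (1 : ℂ))).add h4)
  have e : (1 / 2 : ℂ) * (1 + 1) = 1 := by norm_num
  rw [e] at h7
  refine h7.congr fun z => ?_
  unfold w2_J
  ring

theorem w2_UJ (h : w2_Inp l n) (hn : 1 ≤ n) :
    ∀ᶠ z : ℂ in cocompact ℂ, 0 ≤ z.im → w2_U l n z = w2_J (XC l n z) := by
  have h1 : ∀ᶠ z : ℂ in cocompact ℂ, ‖(XC l n z)⁻¹‖ < 1 := by
    have h2 := (w2_XCinv (l := l) hn).norm
    rw [norm_zero] at h2
    exact h2.eventually_mem (Iio_mem_nhds one_pos)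
  filter_upwards [h1, w2_XCne (l := l) hn] with z hz1 hz2 him
  rcases lt_or_eq_of_le him with h0 | h0
  · exact w2_U_pos h0
  · rw [w2_U_npos (by rw [← h0]; exact lt_irrefl _)]
    have hz : z = (z.re : ℂ) := by
      apply Complex.ext
      · simp
      · simp [← h0]
    have h3 : XC l n z = (X l n z.re : ℂ) := by
      conv_lhs => rw [hz]
      exact h.real _
    have h4 : 1 < |X l n z.re| := by
      rw [norm_inv, h3, Complex.norm_real, Real.norm_eq_abs] at hz1
      have h5 : 0 < |X l n z.re| := by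
        apply abs_pos.2
        intro h6
        apply hz2
        rw [h3, h6, Complex.ofReal_zero]
      rw [inv_lt_one₀ h5] at hz1
      exact hz1
    rw [w2_E_out h h4, h3]

theorem w2_Ulead (h : w2_Inp l n) (hn : 1 ≤ n) :
    Tendsto (fun z : ℂ => w2_U l n z / z ^ Nat.fib n) (cocompact ℂ ⊓ 𝓟 {z | 0 ≤ z.im}) (𝓝 1) := by
  have h1 : Tendsto (fun z : ℂ => w2_J (XC l n z) / z ^ Nat.fib n)
      (cocompact ℂ ⊓ 𝓟 {z | 0 ≤ z.im}) (𝓝 1) := (w2_Jlead (l := l) hn).mono_left inf_le_left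
  refine h1.congr' ?_
  rw [EventuallyEq, eventually_inf_principal]
  filter_upwards [w2_UJ h hn] with z hz him
  rw [hz him]

/-- near infinity the logarithm is the expected one -/
theorem w2_log (h : w2_Inp l n) (hn : 1 ≤ n) {G : ℂ → ℂ} (hG : Continuous G)
    (hexp : ∀ z, Complex.exp (G z) = w2_U l n z)
    (hreal : ∀ x : ℝ, G x = (tau l n x : ℂ) + (Th l n x : ℂ) * I) :
    ∀ᶠ z : ℂ in cocompact ℂ ⊓ 𝓟 {z | 0 ≤ z.im},
      G z - (Nat.fib n : ℂ) * Complex.log z = Complex.log (w2_U l n z / z ^ Nat.fib n) := by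
  have h1 : ∀ᶠ z : ℂ in cocompact ℂ ⊓ 𝓟 {z | 0 ≤ z.im}, 0 < (w2_U l n z / z ^ Nat.fib n).re := by
    have h2 := (Complex.continuous_re.tendsto 1).comp (w2_Ulead h hn)
    rw [Complex.one_re] at h2
    exact h2.eventually_mem (Ioi_mem_nhds one_pos)
  rw [eventually_inf_principal, ← Metric.cobounded_eq_cocompact,
    Filter.hasBasis_cobounded_norm.eventually_iff] at h1
  obtain ⟨R0, -, hR0⟩ := h1
  set R := max R0 1 with hR
  have hR1 : 1 ≤ R := le_max_right _ _
  have hRpos : 0 < R := by linarith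
  have hbig : ∀ z : ℂ, R ≤ ‖z‖ → 0 ≤ z.im → 0 < (w2_U l n z / z ^ Nat.fib n).re := by
    intro z hz him
    have h5 : R0 ≤ ‖z‖ := le_trans (le_max_left _ _) hz
    exact hR0 h5 him
  -- the strip
  set T : Set ℂ := {ζ | Real.log R ≤ ζ.re} ∩ ({ζ | 0 ≤ ζ.im} ∩ {ζ | ζ.im ≤ Real.pi}) with hT
  have hTpre : IsPreconnected T := by
    apply Convex.isPreconnected
    exact (convex_halfSpace_re_ge _).inter ((convex_halfSpace_im_ge _).inter
      (convex_halfSpace_im_le _))
  set Hf : ℂ → ℝ := fun ζ => (G (Complex.exp ζ) - (Nat.fib n : ℂ) * ζ).im with hHf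
  have hHc : Continuous Hf := by
    apply Complex.continuous_im.comp
    exact (hG.comp Complex.continuous_exp).sub (continuous_const.mul continuous_id)
  have hTz : ∀ ζ ∈ T, R ≤ ‖Complex.exp ζ‖ ∧ 0 ≤ (Complex.exp ζ).im := by
    intro ζ hζ
    constructor
    · rw [Complex.norm_exp]
      have : Real.exp (Real.log R) ≤ Real.exp ζ.re := Real.exp_le_exp.2 hζ.1
      rwa [Real.exp_log hRpos] at this
    · rw [Complex.exp_im]
      exact mul_nonneg (Real.exp_pos _).le (Real.sin_nonneg_of_nonneg_of_le_pi hζ.2.1 hζ.2.2)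
  have hexp2 : ∀ ζ, Complex.exp (G (Complex.exp ζ) - (Nat.fib n : ℂ) * ζ) =
      w2_U l n (Complex.exp ζ) / Complex.exp ζ ^ Nat.fib n := by
    intro ζ
    rw [Complex.exp_sub, hexp, Complex.exp_nat_mul]
  have hcos : ∀ ζ ∈ T, 0 < Real.cos (Hf ζ) := by
    intro ζ hζ
    have h2 := hbig _ (hTz ζ hζ).1 (hTz ζ hζ).2
    rw [← hexp2, Complex.exp_re] at h2
    exact (mul_pos_iff_of_pos_left (Real.exp_pos _)).1 h2
  -- base point
  set x1 : ℝ := max R (2 + |l|) with hx1
  have hx1R : R ≤ x1 := le_max_left _ _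
  have hx1pos : 0 < x1 := by linarith
  set ζ1 : ℂ := ((Real.log x1 : ℝ) : ℂ) with hζ1
  have hζ1T : ζ1 ∈ T := by
    refine ⟨?_, ?_, ?_⟩
    · show Real.log R ≤ (ζ1).re
      rw [hζ1, Complex.ofReal_re]
      exact Real.log_le_log hRpos hx1R
    · show 0 ≤ (ζ1).im
      rw [hζ1, Complex.ofReal_im]
    · show (ζ1).im ≤ Real.pi
      rw [hζ1, Complex.ofReal_im]
      exact Real.pi_pos.le
  have hH1 : Hf ζ1 = 0 := by
    have h3 : Complex.exp ζ1 = (x1 : ℂ) := by
      rw [hζ1, ← Complex.ofReal_exp, Real.exp_log hx1pos]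
    have h4 : Th l n x1 = 0 := h.big x1 (le_max_right _ _)
    show (G (Complex.exp ζ1) - (Nat.fib n : ℂ) * ζ1).im = 0
    rw [h3, hreal, h4, hζ1]
    have : ((Nat.fib n : ℂ) * ((Real.log x1 : ℝ) : ℂ)) =
        (((Nat.fib n : ℝ) * Real.log x1 : ℝ) : ℂ) := by push_cast; ring
    rw [this]
    simp only [Complex.sub_im, Complex.ofReal_im, Complex.ofReal_zero, zero_mul, add_zero,
      sub_zero]
  have hbound : ∀ ζ ∈ T, |Hf ζ| < Real.pi / 2 := by
    intro ζ hζ
    by_contra hcon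
    rw [not_lt] at hcon
    have hpi := Real.pi_pos
    obtain ⟨ζ2, hζ2, h2⟩ := hTpre.intermediate_value hζ1T hζ (f := fun ζ => |Hf ζ|)
      hHc.abs.continuousOn ⟨by simp only [hH1, abs_zero]; linarith, hcon⟩
    have h3 := hcos ζ2 hζ2
    have h2' : |Hf ζ2| = Real.pi / 2 := h2
    rw [← Real.cos_abs, h2', Real.cos_pi_div_two] at h3
    exact lt_irrefl _ h3
  -- conclusion
  rw [eventually_inf_principal, ← Metric.cobounded_eq_cocompact,
    Filter.hasBasis_cobounded_norm.eventually_iff]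
  refine ⟨R, trivial, fun z hz him => ?_⟩
  have hz' : R ≤ ‖z‖ := hz
  have him' : 0 ≤ z.im := him
  have hz0 : z ≠ 0 := by
    intro h0
    rw [h0, norm_zero] at hz'
    linarith
  have hζT : Complex.log z ∈ T := by
    refine ⟨?_, ?_, ?_⟩
    · show Real.log R ≤ (Complex.log z).re
      rw [Complex.log_re]
      exact Real.log_le_log hRpos hz'
    · show 0 ≤ (Complex.log z).im
      rw [Complex.log_im]
      exact Complex.arg_nonneg_iff.2 him'
    · show (Complex.log z).im ≤ Real.pi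
      rw [Complex.log_im]
      exact Complex.arg_le_pi z
  have h5 := hbound _ hζT
  have h6 : Hf (Complex.log z) = (G z - (Nat.fib n : ℂ) * Complex.log z).im := by
    show (G (Complex.exp (Complex.log z)) - (Nat.fib n : ℂ) * Complex.log z).im = _
    rw [Complex.exp_log hz0]
  rw [h6, abs_lt] at h5
  have h7 := hexp2 (Complex.log z)
  rw [Complex.exp_log hz0] at h7
  rw [← h7, Complex.log_exp (by linarith [Real.pi_pos, h5.1]) (by linarith [Real.pi_pos, h5.2])]

theorem w2_Gdiff (h : w2_Inp l n) {G : ℂ → ℂ} (hG : Continuous G)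
    (hexp : ∀ z, Complex.exp (G z) = w2_U l n z) {z : ℂ} (hz : 0 < z.im) :
    DifferentiableAt ℂ G z := by
  have h1 : ∀ᶠ y in 𝓝 z, 0 < y.im :=
    Complex.continuous_im.continuousAt.eventually_mem (Ioi_mem_nhds hz)
  have h2 : ∀ᶠ y in 𝓝 z, |(G y - G z).im| < Real.pi := by
    have h3 : Continuous fun y => |(G y - G z).im| :=
      (Complex.continuous_im.comp (hG.sub continuous_const)).abs
    have h4 : |(G z - G z).im| < Real.pi := by
      rw [sub_self, Complex.zero_im, abs_zero]; exact Real.pi_pos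
    exact h3.continuousAt.eventually_mem (Iio_mem_nhds h4)
  have h5 : DifferentiableAt ℂ (fun y => G z + Complex.log (w2_J (XC l n y) / w2_U l n z)) z := by
    have h6 : DifferentiableAt ℂ (fun y => w2_J (XC l n y)) z :=
      DifferentiableAt.comp z (f := XC l n) (g := w2_J) (w2_J_diff (w2_out_H h hz))
        (w2_XC_diff l n z)
    have h7 : w2_J (XC l n z) / w2_U l n z ∈ slitPlane := by
      rw [← w2_U_pos hz, div_self (w2_U_ne h z)]
      exact Complex.one_mem_slitPlane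
    exact (differentiableAt_const _).add ((h6.div_const _).clog h7)
  refine h5.congr_of_eventuallyEq ?_
  filter_upwards [h1, h2] with y hy1 hy2
  rw [abs_lt] at hy2
  rw [← w2_U_pos hy1, ← hexp, ← hexp, ← Complex.exp_sub,
    Complex.log_exp hy2.1 hy2.2.le]
  ring

/-- W2: the analytic functions `f_n` -/
theorem st_W2 (h1 : ST_W1) (h6 : ST_T6) (h9 : ST_T9) (h10 : ST_T10) : ST_W2 := by
  intro l hl0 hl n hn
  have hin : w2_Inp l n := by
    refine ⟨(h6 l hl0 hl n).1, fun E => ((h6 l hl0 hl n).2.2 E).2.2, (h10 l hl0 hl n).1,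
      (h1 l hl0 hl n hn).1, fun z hz c hc => (h1 l hl0 hl n hn).2 z hz c hc,
      fun x hx => (h9 l hl0 hl n x).1 hx⟩
  obtain ⟨G, hG, hexp, hreal⟩ := w2_G hin
  have hF : 0 < Nat.fib n := Nat.fib_pos.2 hn
  have hFr : (0 : ℝ) < Nat.fib n := by exact_mod_cast hF
  have hFc : (Nat.fib n : ℂ) ≠ 0 := by exact_mod_cast hF.ne'
  have hpi : (Real.pi : ℂ) ≠ 0 := by exact_mod_cast Real.pi_ne_zero
  refine ⟨fun z => 1 + I / (Real.pi * Nat.fib n) * G z, ?_, ?_, ?_, ?_, ?_⟩
  · exact (continuous_const.add (continuous_const.mul hG)).continuousOn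
  · intro z hz
    exact ((differentiableAt_const _).add
      ((differentiableAt_const _).mul (w2_Gdiff hin hG hexp hz))).differentiableWithinAt
  · intro z hz
    have h2 : (1 + I / ((Real.pi : ℂ) * (Nat.fib n : ℂ)) * G z).im =
        (G z).re / (Real.pi * Nat.fib n) := by
      have h3 : I / ((Real.pi : ℂ) * (Nat.fib n : ℂ)) * G z =
          ((1 / (Real.pi * Nat.fib n) : ℝ) : ℂ) * (I * G z) := by
        push_cast
        ring
      rw [Complex.add_im, Complex.one_im, h3, Complex.im_ofReal_mul]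
      simp only [Complex.mul_im, Complex.I_re, Complex.I_im, zero_mul, one_mul, zero_add]
      ring
    rw [h2]
    apply div_pos _ (mul_pos Real.pi_pos hFr)
    have h4 : ‖Complex.exp (G z)‖ = ‖w2_J (XC l n z)‖ := by rw [hexp, w2_U_pos hz]
    rw [Complex.norm_exp] at h4
    have h5 := w2_J_norm (w2_out_H hin hz)
    rw [← h4] at h5
    exact Real.one_lt_exp_iff.1 h5
  · intro x
    show 1 + I / ((Real.pi : ℂ) * (Nat.fib n : ℂ)) * G x = _
    rw [hreal]
    push_cast
    have : I * I = -1 := Complex.I_mul_I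
    field_simp
    linear_combination (Th l n x : ℂ) * this
  · have h2 := w2_log hin hn hG hexp hreal
    have h3 : Tendsto (fun z : ℂ => Complex.log (w2_U l n z / z ^ Nat.fib n))
        (cocompact ℂ ⊓ 𝓟 {z | 0 ≤ z.im}) (𝓝 0) := by
      have h4 : ContinuousAt Complex.log 1 := continuousAt_clog Complex.one_mem_slitPlane
      have h5 := h4.tendsto
      rw [Complex.log_one] at h5
      exact h5.comp (w2_Ulead hin hn)
    have h6 : Tendsto (fun z : ℂ => 1 + I / ((Real.pi : ℂ) * (Nat.fib n : ℂ)) *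
        Complex.log (w2_U l n z / z ^ Nat.fib n)) (cocompact ℂ ⊓ 𝓟 {z | 0 ≤ z.im})
        (𝓝 (1 + I / ((Real.pi : ℂ) * (Nat.fib n : ℂ)) * 0)) :=
      tendsto_const_nhds.add (h3.const_mul _)
    rw [mul_zero, add_zero] at h6
    refine h6.congr' ?_
    filter_upwards [h2] with z hz
    rw [← hz]
    field_simp
    ring

end

end Pool.Agent.Helper36.CV
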