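import Pool.Agent.Helper36.CV.StmtsW

set_option autoImplicit false

/-!
Module W2, part a: the inverse of the Joukowsky map.
-/

namespace Pool.Agent.Helper36.CV

open Complex Filter Topology

noncomputable section

/-- square root -/
def w2_q (x : ℂ) : ℂ := Complex.exp (Complex.log x / 2)

theorem w2_q_sq {x : ℂ} (hx : x ≠ 0) : w2_q x ^ 2 = x := by
  unfold w2_q
  rw [← Complex.exp_nat_mul]
  have : ((2 : ℕ) : ℂ) * (Complex.log x / 2) = Complex.log x := by push_cast; ring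
  rw [this, Complex.exp_log hx]

theorem w2_q_re {x : ℂ} (hx : x ∈ slitPlane) : 0 < (w2_q x).re := by
  unfold w2_q
  rw [Complex.exp_re]
  have h1 : (Complex.log x / 2).im = x.arg / 2 := by
    have : Complex.log x / 2 = ((1 / 2 : ℝ) : ℂ) * Complex.log x := by push_cast; ring
    rw [this, Complex.im_ofReal_mul, Complex.log_im]
    ring
  rw [h1]
  apply mul_pos (Real.exp_pos _)
  apply Real.cos_pos_of_mem_Ioo
  have h2 := Complex.neg_pi_lt_arg x
  have h3 := Complex.arg_le_pi x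
  have h4 := (Complex.mem_slitPlane_iff_arg.1 hx).1
  have h5 : x.arg < Real.pi := lt_of_le_of_ne h3 h4
  constructor <;> linarith

theorem w2_q_diff {x : ℂ} (hx : x ∈ slitPlane) : DifferentiableAt ℂ w2_q x := by
  unfold w2_q
  exact ((Complex.differentiableAt_log hx).div_const 2).cexp

theorem w2_q_real {x : ℝ} (hx : 0 < x) : w2_q (x : ℂ) = ((Real.sqrt x : ℝ) : ℂ) := by
  unfold w2_q
  rw [← Complex.ofReal_log hx.le]
  have : ((Real.log x : ℝ) : ℂ) / 2 = ((Real.log x / 2 : ℝ) : ℂ) := by push_cast; ring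
  rw [this, ← Complex.ofReal_exp]
  congr 1
  rw [Real.sqrt_eq_rpow, Real.rpow_def_of_pos hx]
  congr 1
  ring

/-- outside `[-1,1]` -/
def w2_out (w : ℂ) : Prop := ∀ c : ℝ, |c| ≤ 1 → w ≠ c

theorem w2_slit {w : ℂ} (hw : w2_out w) : w ≠ 0 ∧ 1 - (w ^ 2)⁻¹ ∈ slitPlane := by
  have h0 : w ≠ 0 := by
    have := hw 0 (by norm_num)
    simpa using this
  refine ⟨h0, ?_⟩
  by_contra hcon
  rw [Complex.mem_slitPlane_iff, not_or, not_lt, not_not] at hcon
  obtain ⟨h1, h2⟩ := hcon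
  have hy : (w ^ 2)⁻¹ = (((w ^ 2)⁻¹.re : ℝ) : ℂ) := by
    apply Complex.ext
    · rw [Complex.ofReal_re]
    · rw [Complex.ofReal_im]
      rw [Complex.sub_im, Complex.one_im] at h2
      linarith
  have hr : 1 ≤ (w ^ 2)⁻¹.re := by
    rw [Complex.sub_re, Complex.one_re] at h1
    linarith
  set r : ℝ := (w ^ 2)⁻¹.re with hrdef
  have hr0 : 0 < r := by linarith
  have hw2 : w ^ 2 = ((Real.sqrt r⁻¹ : ℝ) : ℂ) ^ 2 := by
    rw [← Complex.ofReal_pow, Real.sq_sqrt (by positivity)]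
    rw [Complex.ofReal_inv, ← hy, inv_inv]
  have hs1 : Real.sqrt r⁻¹ ≤ 1 := by
    rw [Real.sqrt_le_one]
    exact inv_le_one_of_one_le₀ hr
  have hs0 : 0 ≤ Real.sqrt r⁻¹ := Real.sqrt_nonneg _
  rcases sq_eq_sq_iff_eq_or_eq_neg.1 hw2 with h | h
  · exact hw (Real.sqrt r⁻¹) (by rw [abs_of_nonneg hs0]; exact hs1) h
  · refine hw (-Real.sqrt r⁻¹) (by rw [abs_neg, abs_of_nonneg hs0]; exact hs1) ?_
    rw [h]; push_cast; ring

/-- the inverse of the Joukowsky map -/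
def w2_J (w : ℂ) : ℂ := w * (1 + w2_q (1 - (w ^ 2)⁻¹))

theorem w2_J_diff {w : ℂ} (hw : w2_out w) : DifferentiableAt ℂ w2_J w := by
  obtain ⟨h0, h1⟩ := w2_slit hw
  have h2 : DifferentiableAt ℂ (fun w : ℂ => 1 - (w ^ 2)⁻¹) w :=
    (differentiableAt_const _).sub ((differentiableAt_id.pow 2).inv (pow_ne_zero 2 h0))
  have h3 : DifferentiableAt ℂ (fun w : ℂ => w2_q (1 - (w ^ 2)⁻¹)) w :=
    DifferentiableAt.comp w (f := fun w : ℂ => 1 - (w ^ 2)⁻¹) (g := w2_q) (w2_q_diff h1) h2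
  have h4 : DifferentiableAt ℂ (fun w : ℂ => w * (1 + w2_q (1 - (w ^ 2)⁻¹))) w :=
    differentiableAt_id.mul ((differentiableAt_const _).add h3)
  exact h4

theorem w2_J_norm {w : ℂ} (hw : w2_out w) : 1 < ‖w2_J w‖ := by
  obtain ⟨h0, h1⟩ := w2_slit hw
  set q := w2_q (1 - (w ^ 2)⁻¹) with hq
  have hne : 1 - (w ^ 2)⁻¹ ≠ 0 := Complex.slitPlane_ne_zero h1
  have hq2 : q ^ 2 = 1 - (w ^ 2)⁻¹ := w2_q_sq hne
  have hre : 0 < q.re := w2_q_re h1
  have hJ : w2_J w = w * (1 + q) := rfl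
  have hprod : w2_J w * (w * (1 - q)) = 1 := by
    rw [hJ]
    have : w * (1 + q) * (w * (1 - q)) = w ^ 2 * (1 - q ^ 2) := by ring
    rw [this, hq2]
    field_simp
    ring
  have hn : ‖w2_J w‖ * ‖w * (1 - q)‖ = 1 := by
    rw [← norm_mul, hprod, norm_one]
  have hlt : ‖1 - q‖ < ‖1 + q‖ := by
    apply lt_of_pow_lt_pow_left₀ 2 (norm_nonneg _)
    rw [Complex.sq_norm, Complex.sq_norm, Complex.normSq_apply, Complex.normSq_apply]
    simp only [Complex.sub_re, Complex.one_re, Complex.sub_im, Complex.one_im, Complex.add_re,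
      Complex.add_im]
    nlinarith
  have hlt2 : ‖w * (1 - q)‖ < ‖w2_J w‖ := by
    rw [hJ, norm_mul, norm_mul]
    exact mul_lt_mul_of_pos_left hlt (norm_pos_iff.2 h0)
  have hpos : 0 ≤ ‖w * (1 - q)‖ := norm_nonneg _
  by_contra hcon
  rw [not_lt] at hcon
  have hJ0 : 0 < ‖w2_J w‖ := lt_of_le_of_lt hpos hlt2
  nlinarith

/-- `S = J - w` -/
theorem w2_S_sq {w : ℂ} (hw : w2_out w) : (w2_J w - w) ^ 2 = w ^ 2 - 1 := by
  obtain ⟨h0, h1⟩ := w2_slit hw
  have hne : 1 - (w ^ 2)⁻¹ ≠ 0 := Complex.slitPlane_ne_zero h1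
  have hq2 : w2_q (1 - (w ^ 2)⁻¹) ^ 2 = 1 - (w ^ 2)⁻¹ := w2_q_sq hne
  have hJ : w2_J w - w = w * w2_q (1 - (w ^ 2)⁻¹) := by unfold w2_J; ring
  rw [hJ, mul_pow, hq2]
  field_simp

theorem w2_S_sgn {w : ℂ} (hw : w2_out w) (him : w.im ≠ 0) : 0 < w.im * (w2_J w - w).im := by
  obtain ⟨h0, h1⟩ := w2_slit hw
  have hre : 0 < (w2_q (1 - (w ^ 2)⁻¹)).re := w2_q_re h1
  have hsq := w2_S_sq hw
  have hJ : w2_J w - w = w * w2_q (1 - (w ^ 2)⁻¹) := by unfold w2_J; ring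
  set S := w2_J w - w with hS
  have e1 := congrArg Complex.im hsq
  have e1' : 2 * S.re * S.im = 2 * w.re * w.im := by
    simp only [pow_two, Complex.mul_im, Complex.sub_im, Complex.one_im] at e1
    linarith
  have e2 : 0 < w.re * S.re + w.im * S.im := by
    rw [hJ, Complex.mul_re, Complex.mul_im]
    have hn : 0 < w.re ^ 2 + w.im ^ 2 := by positivity
    have : w.re * (w.re * (w2_q (1 - (w ^ 2)⁻¹)).re - w.im * (w2_q (1 - (w ^ 2)⁻¹)).im) +
        w.im * (w.re * (w2_q (1 - (w ^ 2)⁻¹)).im + w.im * (w2_q (1 - (w ^ 2)⁻¹)).re) =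
        (w.re ^ 2 + w.im ^ 2) * (w2_q (1 - (w ^ 2)⁻¹)).re := by ring
    rw [this]
    exact mul_pos hn hre
  by_contra hcon
  rw [not_lt] at hcon
  have e3 : 0 < w.re * S.re := by linarith
  have hre0 : w.re ≠ 0 := by
    intro h; rw [h] at e3; simp at e3
  have e4 : (w.re * S.re) * (w.im * S.im) = (w.re * w.im) ^ 2 := by
    have : S.re * S.im = w.re * w.im := by linarith
    calc (w.re * S.re) * (w.im * S.im) = (w.re * w.im) * (S.re * S.im) := by ring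
      _ = (w.re * w.im) ^ 2 := by rw [this]; ring
  have e5 : 0 < (w.re * w.im) ^ 2 := by positivity
  nlinarith

theorem w2_J_real {x : ℝ} (hx : 1 < |x|) :
    w2_J (x : ℂ) = ((x * (1 + Real.sqrt (1 - (x ^ 2)⁻¹)) : ℝ) : ℂ) := by
  unfold w2_J
  have h1 : 1 < x ^ 2 := by
    rw [← sq_abs]; nlinarith
  have h2 : (x ^ 2)⁻¹ < 1 := inv_lt_one_of_one_lt₀ h1
  have h3 : (1 : ℂ) - ((x : ℂ) ^ 2)⁻¹ = ((1 - (x ^ 2)⁻¹ : ℝ) : ℂ) := by push_cast; ring
  rw [h3, w2_q_real (by linarith)]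
  push_cast
  ring

theorem w2_out_real {x : ℝ} (hx : 1 < |x|) : w2_out (x : ℂ) := by
  intro c hc h
  have := Complex.ofReal_injective h
  rw [this] at hx
  linarith

end

end Pool.Agent.Helper36.CV
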