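import Pool.Agent.Helper55.CV.W2a

set_option autoImplicit false

/-!
Module W2, part b: boundary values.
-/

namespace Pool.Agent.Helper36.CV

open Complex Filter Topology

noncomputable section

theorem w2_XC_diff (l : ℝ) : ∀ n, Differentiable ℂ (XC l n) := by
  intro n
  induction n using Nat.strong_induction_on with
  | _ n ih =>
    match n, ih with
    | 0, _ => exact differentiable_const (1 : ℂ)
    | 1, _ => exact differentiable_id.div_const 2
    | 2, _ => exact (differentiable_id.sub (differentiable_const (l : ℂ))).div_const 2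
    | (m + 3), ih =>
      have h2 := ih (m + 2) (by omega)
      have h1 := ih (m + 1) (by omega)
      have h0 := ih m (by omega)
      have : XC l (m + 3) = fun z => 2 * XC l (m + 2) z * XC l (m + 1) z - XC l m z := rfl
      rw [this]
      exact (((differentiable_const (2 : ℂ)).mul h2).mul h1).sub h0

/-- what is used of the inputs -/
structure w2_Inp (l : ℝ) (n : ℕ) : Prop where
  Thc : Continuous (Th l n)
  cos : ∀ E : ℝ, Real.cos (Th l n E) = clamp (X l n E)
  anti : Antitone (Th l n)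
  real : ∀ x : ℝ, XC l n x = X l n x
  out : ∀ z : ℂ, z.im ≠ 0 → w2_out (XC l n z)
  big : ∀ x : ℝ, 2 + |l| ≤ x → Th l n x = 0

variable {l : ℝ} {n : ℕ}

theorem w2_X_cont (h : w2_Inp l n) : Continuous (X l n) := by
  have h1 : X l n = fun x : ℝ => (XC l n (x : ℂ)).re := by
    funext x
    rw [h.real x, Complex.ofReal_re]
  rw [h1]
  exact Complex.continuous_re.comp ((w2_XC_diff l n).continuous.comp Complex.continuous_ofReal)

theorem w2_tau_cont (h : w2_Inp l n) : Continuous (tau l n) := by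
  unfold tau
  apply Real.continuousOn_arcosh.comp_continuous
  · exact continuous_const.max (w2_X_cont h).abs
  · intro x
    show (1 : ℝ) ≤ max 1 |X l n x|
    exact le_max_left _ _

/-- boundary value -/
def w2_E (l : ℝ) (n : ℕ) (x : ℝ) : ℂ := Complex.exp ((tau l n x : ℂ) + (Th l n x : ℂ) * I)

theorem w2_E_cont (h : w2_Inp l n) : Continuous (w2_E l n) := by
  unfold w2_E
  apply Complex.continuous_exp.comp
  exact (Complex.continuous_ofReal.comp (w2_tau_cont h)).add
    ((Complex.continuous_ofReal.comp h.Thc).mul continuous_const)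

theorem w2_E_eq (x : ℝ) : w2_E l n x =
    ((Real.exp (tau l n x) : ℝ) : ℂ) * (((Real.cos (Th l n x) : ℝ) : ℂ) +
      ((Real.sin (Th l n x) : ℝ) : ℂ) * I) := by
  unfold w2_E
  rw [Complex.exp_add, Complex.exp_mul_I]
  push_cast
  ring

theorem w2_E_in (h : w2_Inp l n) {x : ℝ} (hx : |X l n x| ≤ 1) :
    w2_E l n x = (X l n x : ℂ) + ((Real.sin (Th l n x) : ℝ) : ℂ) * I := by
  have h1 : tau l n x = 0 := by
    unfold tau
    rw [max_eq_left hx, Real.arcosh_zero]
  have h2 : clamp (X l n x) = X l n x := by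
    unfold clamp
    rw [abs_le] at hx
    rw [min_eq_right hx.2, max_eq_right hx.1]
  rw [w2_E_eq, h1, Real.exp_zero, h.cos, h2]
  push_cast
  ring

theorem w2_sin_sq (h : w2_Inp l n) {x : ℝ} (hx : |X l n x| ≤ 1) :
    Real.sin (Th l n x) ^ 2 = 1 - X l n x ^ 2 := by
  have h2 : clamp (X l n x) = X l n x := by
    unfold clamp
    rw [abs_le] at hx
    rw [min_eq_right hx.2, max_eq_right hx.1]
  rw [Real.sin_sq, h.cos, h2]

theorem w2_E_out (h : w2_Inp l n) {x : ℝ} (hx : 1 < |X l n x|) :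
    w2_E l n x = w2_J (X l n x : ℂ) := by
  rw [w2_J_real hx, w2_E_eq]
  set y := X l n x with hy
  have h1 : Real.exp (tau l n x) = |y| + Real.sqrt (y ^ 2 - 1) := by
    unfold tau
    rw [← hy, max_eq_right hx.le, Real.exp_arcosh hx.le, sq_abs]
  have hcos := h.cos x
  have hy1 : 1 < y ^ 2 := by rw [← sq_abs]; nlinarith
  have hsq : Real.sqrt (y ^ 2 - 1) = |y| * Real.sqrt (1 - (y ^ 2)⁻¹) := by
    have h3 : y ^ 2 - 1 = |y| ^ 2 * (1 - (y ^ 2)⁻¹) := by
      rw [sq_abs]
      have : y ^ 2 ≠ 0 := by linarith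
      rw [mul_sub, mul_inv_cancel₀ this, mul_one]
    rw [h3, Real.sqrt_mul (by positivity), Real.sqrt_sq (abs_nonneg y)]
  rcases le_or_gt 0 y with h0 | h0
  · have hy2 : 1 < y := by rwa [abs_of_nonneg h0] at hx
    have hc : Real.cos (Th l n x) = 1 := by
      rw [hcos]; unfold clamp
      rw [← hy, min_eq_left hy2.le]; norm_num
    have hs : Real.sin (Th l n x) = 0 := by
      have := Real.sin_sq_add_cos_sq (Th l n x)
      rw [hc] at this
      have : Real.sin (Th l n x) ^ 2 = 0 := by linarith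
      exact pow_eq_zero_iff (two_ne_zero) |>.1 this
    rw [h1, hc, hs, hsq, abs_of_nonneg h0]
    push_cast
    ring
  · have hy2 : y < -1 := by rw [abs_of_neg h0] at hx; linarith
    have hc : Real.cos (Th l n x) = -1 := by
      rw [hcos]; unfold clamp
      rw [← hy, min_eq_right (by linarith), max_eq_left hy2.le]
    have hs : Real.sin (Th l n x) = 0 := by
      have := Real.sin_sq_add_cos_sq (Th l n x)
      rw [hc] at this
      have : Real.sin (Th l n x) ^ 2 = 0 := by linarith
      exact pow_eq_zero_iff (two_ne_zero) |>.1 this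
    rw [h1, hc, hs, hsq, abs_of_neg h0]
    push_cast
    ring

/-! ### the sign of the imaginary part near the boundary -/

/-- the open upper half plane -/
def w2_H : Set ℂ := {z | 0 < z.im}

/-- a one-sided derivative argument: `Im F(x + i y) s < 0` for small `y > 0` gives `F' s ≤ 0` -/
theorem w2_deriv {F : ℂ → ℂ} {D : ℂ} {x s δ : ℝ} (hδ : 0 < δ) (hF : HasDerivAt F D (x : ℂ))
    (h0 : (F x).im = 0)
    (hneg : ∀ y : ℝ, 0 < y → y < δ → (F ((x : ℂ) + (y : ℂ) * I)).im * s ≤ 0) : D.re * s ≤ 0 := by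
  have h1 : HasDerivAt (fun y : ℝ => (x : ℂ) + (y : ℂ) * I) I 0 := by
    have h2 : HasDerivAt (fun y : ℝ => (y : ℂ) * I) (1 * I) 0 :=
      (Complex.ofRealCLM.hasDerivAt (x := (0 : ℝ))).mul_const I
    have h3 := h2.const_add (x : ℂ)
    rwa [one_mul] at h3
  have h4 : HasDerivAt (fun y : ℝ => F ((x : ℂ) + (y : ℂ) * I)) (D * I) 0 := by
    have h5 : HasDerivAt F D ((fun y : ℝ => (x : ℂ) + (y : ℂ) * I) 0) := by
      simpa using hF
    exact HasDerivAt.comp (0 : ℝ) h5 h1
  have h6 : HasDerivAt (fun y : ℝ => (F ((x : ℂ) + (y : ℂ) * I)).im * s) ((D * I).im * s) 0 := by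
    have h7 : HasDerivAt (fun y : ℝ => (F ((x : ℂ) + (y : ℂ) * I)).im) (D * I).im 0 :=
      (Complex.imCLM.hasFDerivAt.comp_hasDerivAt (0 : ℝ) h4)
    exact h7.mul_const s
  have h8 : (D * I).im = D.re := by simp
  rw [h8, hasDerivAt_iff_tendsto_slope_zero] at h6
  have h9 : Tendsto (fun t : ℝ => t⁻¹ • ((F ((x : ℂ) + ((0 + t : ℝ) : ℂ) * I)).im * s -
      (F ((x : ℂ) + ((0 : ℝ) : ℂ) * I)).im * s)) (𝓝[>] 0) (𝓝 (D.re * s)) :=
    h6.mono_left (nhdsWithin_mono _ (fun y hy => ne_of_gt hy))
  refine le_of_tendsto h9 ?_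
  have h10 : ∀ᶠ t : ℝ in 𝓝[>] 0, t ∈ Set.Ioo 0 δ := Ioo_mem_nhdsGT hδ
  filter_upwards [h10] with t ht
  have e0 : (x : ℂ) + ((0 : ℝ) : ℂ) * I = (x : ℂ) := by simp
  rw [zero_add, e0, h0, zero_mul, sub_zero, smul_eq_mul]
  exact mul_nonpos_of_nonneg_of_nonpos (inv_nonneg.2 ht.1.le) (hneg t ht.1 ht.2)

/-- monotonicity of `cos Th` where `sin` has a sign -/
theorem w2_mono {a b s θ η : ℝ} (hη : η ≤ 1)
    (hsin : ∀ c : ℝ, |c - θ| ≤ η → 0 < Real.sin c * s) (ha : |a - θ| ≤ η) (hb : |b - θ| ≤ η)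
    (hab : b ≤ a) : 0 ≤ (Real.cos b - Real.cos a) * s := by
  have h1 : Real.cos b - Real.cos a =
      2 * Real.sin ((a + b) / 2) * Real.sin ((a - b) / 2) := by
    have h2 := Real.cos_sub_cos b a
    rw [h2]
    have e1 : (b + a) / 2 = (a + b) / 2 := by ring
    have e2 : (b - a) / 2 = -((a - b) / 2) := by ring
    rw [e1, e2, Real.sin_neg]
    ring
  rw [abs_le] at ha hb
  have h3 : 0 < Real.sin ((a + b) / 2) * s := by
    apply hsin
    rw [abs_le]
    constructor <;> linarith [ha.1, ha.2, hb.1, hb.2]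
  have h4 : 0 ≤ Real.sin ((a - b) / 2) := by
    apply Real.sin_nonneg_of_nonneg_of_le_pi
    · linarith
    · have := Real.pi_gt_three
      linarith [ha.1, ha.2, hb.1, hb.2]
  rw [h1]
  have : 2 * Real.sin ((a + b) / 2) * Real.sin ((a - b) / 2) * s =
      2 * (Real.sin ((a + b) / 2) * s) * Real.sin ((a - b) / 2) := by ring
  rw [this]
  positivity

/-- the sign of `Im X_n` on a half ball -/
theorem w2_sign (h : w2_Inp l n) {x0 : ℝ} (hx : |X l n x0| < 1) :
    ∀ᶠ z in 𝓝[w2_H] (x0 : ℂ), 0 < (XC l n z).im * Real.sin (Th l n x0) := by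
  set s := Real.sin (Th l n x0) with hs
  have hs0 : s ≠ 0 := by
    intro h0
    have h1 := w2_sin_sq h hx.le
    rw [← hs, h0] at h1
    have h2 : X l n x0 ^ 2 < 1 := by
      rw [← sq_abs]
      have := abs_nonneg (X l n x0)
      nlinarith
    linarith
  -- eta
  have hc : ∀ᶠ c in 𝓝 (Th l n x0), 0 < Real.sin c * s := by
    have h1 : Continuous fun c : ℝ => Real.sin c * s := Real.continuous_sin.mul continuous_const
    have h2 : 0 < Real.sin (Th l n x0) * s := by
      rw [← hs]; exact mul_self_pos.2 hs0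
    exact h1.continuousAt.eventually_mem (Ioi_mem_nhds h2)
  obtain ⟨η0, hη0, hη⟩ := Metric.eventually_nhds_iff.1 hc
  set η := min (η0 / 2) 1 with hηdef
  have hηpos : 0 < η := by positivity
  have hsin : ∀ c : ℝ, |c - Th l n x0| ≤ η → 0 < Real.sin c * s := by
    intro c hc
    apply hη
    rw [Real.dist_eq]
    have : η ≤ η0 / 2 := min_le_left _ _
    linarith
  -- delta
  have hd1 : ∀ᶠ x in 𝓝 x0, |Th l n x - Th l n x0| ≤ η := by
    have h1 := (Metric.continuous_iff.1 h.Thc) x0 η hηpos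
    obtain ⟨δ, hδ, h2⟩ := h1
    filter_upwards [Metric.ball_mem_nhds x0 hδ] with x hx
    have := h2 x hx
    rw [Real.dist_eq] at this
    exact this.le
  obtain ⟨δ1, hδ1, hd1⟩ := Metric.eventually_nhds_iff.1 hd1
  have hd2 : ∀ᶠ z in 𝓝 (x0 : ℂ), ‖XC l n z - XC l n x0‖ < 1 - |X l n x0| := by
    have h1 : ContinuousAt (fun z => ‖XC l n z - XC l n x0‖) (x0 : ℂ) :=
      ((w2_XC_diff l n).continuous.continuousAt.sub continuousAt_const).norm
    have h2 : ‖XC l n (x0 : ℂ) - XC l n x0‖ < 1 - |X l n x0| := by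
      rw [sub_self, norm_zero]
      linarith
    exact h1.eventually_mem (Iio_mem_nhds h2)
  obtain ⟨δ2, hδ2, hd2⟩ := Metric.eventually_nhds_iff.1 hd2
  set δ := min δ1 δ2 with hδdef
  have hδ : 0 < δ := lt_min hδ1 hδ2
  set Q : Set ℂ := w2_H ∩ Metric.ball (x0 : ℂ) δ with hQ
  have hQconv : Convex ℝ Q := by
    apply Convex.inter
    · exact convex_halfSpace_im_gt 0
    · exact convex_ball _ _
  have hQpre : IsPreconnected Q := hQconv.isPreconnected
  -- no real values on Q
  have hQ0 : ∀ z ∈ Q, (XC l n z).im ≠ 0 := by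
    intro z hz h0
    have hz1 : 0 < z.im := hz.1
    have hz2 : dist z (x0 : ℂ) < δ2 := lt_of_lt_of_le hz.2 (min_le_right _ _)
    have h1 := hd2 hz2
    rw [h.real] at h1
    have h2 : |(XC l n z).re - X l n x0| < 1 - |X l n x0| := by
      refine lt_of_le_of_lt ?_ h1
      have := Complex.abs_re_le_norm (XC l n z - (X l n x0 : ℂ))
      simpa using this
    have h3 : |(XC l n z).re| ≤ 1 := by
      have := abs_sub_abs_le_abs_sub (XC l n z).re (X l n x0)
      linarith
    apply h.out z (ne_of_gt hz1) (XC l n z).re h3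
    apply Complex.ext
    · rw [Complex.ofReal_re]
    · rw [Complex.ofReal_im, h0]
  have hmemQ : Q ∈ 𝓝[w2_H] (x0 : ℂ) :=
    Filter.inter_mem self_mem_nhdsWithin (mem_nhdsWithin_of_mem_nhds (Metric.ball_mem_nhds _ hδ))
  filter_upwards [hmemQ] with z1 hz1
  by_contra hcon
  rw [not_lt] at hcon
  -- all of Q has the wrong sign
  have hall : ∀ z ∈ Q, (XC l n z).im * s ≤ 0 := by
    intro z hz
    by_contra hcon2
    rw [not_le] at hcon2
    have hcont : ContinuousOn (fun z => (XC l n z).im * s) Q :=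
      ((Complex.continuous_im.comp (w2_XC_diff l n).continuous).mul continuous_const).continuousOn
    have := hQpre.intermediate_value hz1 hz hcont
    obtain ⟨z2, hz2, h2⟩ := this ⟨hcon, hcon2.le⟩
    rcases mul_eq_zero.1 h2 with h3 | h3
    · exact hQ0 z2 hz2 h3
    · exact hs0 h3
  -- derivative sign on the interval
  set J : Set ℝ := Set.Ioo (x0 - δ) (x0 + δ) with hJ
  have hJd : ∀ x ∈ J, |x - x0| < δ := fun x hx => abs_lt.2 ⟨by linarith [hx.1], by linarith [hx.2]⟩
  have hderiv : ∀ x : ℝ, HasDerivAt (X l n) (deriv (XC l n) (x : ℂ)).re x := by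
    intro x
    have h1 : HasDerivAt (XC l n) (deriv (XC l n) (x : ℂ)) (x : ℂ) :=
      ((w2_XC_diff l n) (x : ℂ)).hasDerivAt
    have h2 := h1.real_of_complex
    have h3 : (fun y : ℝ => (XC l n (y : ℂ)).re) = X l n := by
      funext y
      rw [h.real y, Complex.ofReal_re]
    rwa [h3] at h2
  have hneg : ∀ x ∈ J, (deriv (XC l n) (x : ℂ)).re * s ≤ 0 := by
    intro x hx
    have hxd := hJd x hx
    apply w2_deriv (δ := δ - |x - x0|) (by linarith)
      ((w2_XC_diff l n) (x : ℂ)).hasDerivAt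
    · rw [h.real, Complex.ofReal_im]
    · intro y hy1 hy2
      apply hall
      refine ⟨?_, ?_⟩
      · show 0 < ((x : ℂ) + (y : ℂ) * I).im
        simp [hy1]
      · rw [Metric.mem_ball, dist_eq_norm]
        have h1 : (x : ℂ) + (y : ℂ) * I - (x0 : ℂ) = ((x - x0 : ℝ) : ℂ) + (y : ℂ) * I := by
          push_cast; ring
        rw [h1]
        refine lt_of_le_of_lt (norm_add_le _ _) ?_
        rw [norm_mul, Complex.norm_I, mul_one, Complex.norm_real, Complex.norm_real,
          Real.norm_eq_abs, Real.norm_eq_abs, abs_of_pos hy1]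
        linarith
  have hanti : AntitoneOn (fun x => X l n x * s) J := by
    apply antitoneOn_of_deriv_nonpos (convex_Ioo _ _)
    · exact ((w2_X_cont h).mul continuous_const).continuousOn
    · intro x _
      exact ((hderiv x).mul_const s).differentiableAt.differentiableWithinAt
    · intro x hx
      rw [interior_Ioo] at hx
      rw [((hderiv x).mul_const s).deriv]
      exact hneg x hx
  -- monotone because of the phase
  have hclamp : ∀ x ∈ J, X l n x = Real.cos (Th l n x) := by
    intro x hx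
    have hx2 : dist (x : ℂ) (x0 : ℂ) < δ2 := by
      rw [Complex.dist_of_im_eq (by simp)]
      simp only [Complex.ofReal_re]
      rw [Real.dist_eq]
      exact lt_of_lt_of_le (hJd x hx) (min_le_right _ _)
    have h1 := hd2 hx2
    rw [h.real, h.real, ← Complex.ofReal_sub, Complex.norm_real, Real.norm_eq_abs] at h1
    have h3 : |X l n x| ≤ 1 := by
      have := abs_sub_abs_le_abs_sub (X l n x) (X l n x0)
      linarith
    rw [h.cos]
    unfold clamp
    rw [abs_le] at h3
    rw [min_eq_right h3.2, max_eq_right h3.1]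
  have hmono : MonotoneOn (fun x => X l n x * s) J := by
    intro x hx y hy hxy
    have hx1 : |Th l n x - Th l n x0| ≤ η :=
      hd1 (by rw [Real.dist_eq]; exact lt_of_lt_of_le (hJd x hx) (min_le_left _ _))
    have hy1 : |Th l n y - Th l n x0| ≤ η :=
      hd1 (by rw [Real.dist_eq]; exact lt_of_lt_of_le (hJd y hy) (min_le_left _ _))
    have := w2_mono (min_le_right _ _) hsin hx1 hy1 (h.anti hxy)
    show X l n x * s ≤ X l n y * s
    rw [hclamp x hx, hclamp y hy]
    linarith
  have hx0J : x0 ∈ J := ⟨by linarith, by linarith⟩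
  have hconst : ∀ x ∈ J, X l n x = X l n x0 := by
    intro x hx
    have h1 : X l n x * s = X l n x0 * s := by
      rcases le_total x x0 with h2 | h2
      · exact le_antisymm (hmono hx hx0J h2) (hanti hx hx0J h2)
      · exact le_antisymm (hanti hx0J hx h2) (hmono hx0J hx h2)
    exact mul_right_cancel₀ hs0 h1
  -- so the polynomial is constant
  have hana : AnalyticOnNhd ℂ (XC l n) Set.univ :=
    fun z _ => (w2_XC_diff l n).analyticAt z
  have hana2 : AnalyticOnNhd ℂ (fun _ : ℂ => (X l n x0 : ℂ)) Set.univ :=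
    fun z _ => analyticAt_const
  have hfreq : ∃ᶠ z in 𝓝[≠] (x0 : ℂ), XC l n z = (X l n x0 : ℂ) := by
    have h1 : Tendsto (fun x : ℝ => (x : ℂ)) (𝓝[≠] x0) (𝓝[≠] (x0 : ℂ)) := by
      apply tendsto_nhdsWithin_iff.2
      refine ⟨Complex.continuous_ofReal.continuousAt.tendsto.mono_left nhdsWithin_le_nhds, ?_⟩
      filter_upwards [self_mem_nhdsWithin] with x hx
      intro hh
      exact hx (Complex.ofReal_injective hh)
    apply h1.frequently
    apply Eventually.frequently
    have h2 : J ∈ 𝓝 x0 := Ioo_mem_nhds hx0J.1 hx0J.2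
    filter_upwards [mem_nhdsWithin_of_mem_nhds h2] with x hx
    rw [h.real, hconst x hx]
  have heq := hana.eqOn_of_preconnected_of_frequently_eq hana2 isPreconnected_univ
    (Set.mem_univ (x0 : ℂ)) hfreq
  have h3 := heq (Set.mem_univ I)
  exact h.out I (by simp) (X l n x0) hx.le h3

end

end Pool.Agent.Helper36.CV
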