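import Pool.Agent.Helper55.CV.W2b

set_option autoImplicit false

/-!
Module W2, part c: the continuous extension.
-/

namespace Pool.Agent.Helper36.CV

open Complex Filter Topology

noncomputable section

variable {l : ℝ} {n : ℕ}

theorem w2_out_H (h : w2_Inp l n) {z : ℂ} (hz : z ∈ w2_H) : w2_out (XC l n z) :=
  h.out z (ne_of_gt hz)

theorem w2_lim (h : w2_Inp l n) (x0 : ℝ) :
    Tendsto (fun z => w2_J (XC l n z)) (𝓝[w2_H] (x0 : ℂ)) (𝓝 (w2_E l n x0)) := by
  have hXC : Tendsto (XC l n) (𝓝[w2_H] (x0 : ℂ)) (𝓝 (X l n x0 : ℂ)) := by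
    have h1 := ((w2_XC_diff l n).continuous.tendsto (x0 : ℂ)).mono_left
      (nhdsWithin_le_nhds (s := w2_H))
    rwa [h.real] at h1
  rcases lt_or_ge 1 |X l n x0| with h1 | h1
  · rw [w2_E_out h h1]
    exact ((w2_J_diff (w2_out_real h1)).continuousAt.tendsto).comp hXC
  · rw [w2_E_in h h1]
    set s := Real.sin (Th l n x0) with hs
    have hs2 : s ^ 2 = 1 - X l n x0 ^ 2 := w2_sin_sq h h1
    -- it is enough to treat `S = J - w`
    suffices hS : Tendsto (fun z => w2_J (XC l n z) - XC l n z) (𝓝[w2_H] (x0 : ℂ))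
        (𝓝 ((s : ℂ) * I)) by
      have h2 := hXC.add hS
      refine h2.congr fun z => ?_
      ring
    have hmem : ∀ᶠ z in 𝓝[w2_H] (x0 : ℂ), z ∈ w2_H := self_mem_nhdsWithin
    have hsq : Tendsto (fun z => (w2_J (XC l n z) - XC l n z) ^ 2 + (s : ℂ) ^ 2)
        (𝓝[w2_H] (x0 : ℂ)) (𝓝 0) := by
      have h3 : Tendsto (fun z => XC l n z ^ 2 - 1 + (s : ℂ) ^ 2) (𝓝[w2_H] (x0 : ℂ))
          (𝓝 ((X l n x0 : ℂ) ^ 2 - 1 + (s : ℂ) ^ 2)) :=
        ((hXC.pow 2).sub tendsto_const_nhds).add tendsto_const_nhds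
      have h4 : (X l n x0 : ℂ) ^ 2 - 1 + (s : ℂ) ^ 2 = 0 := by
        rw [← Complex.ofReal_pow, ← Complex.ofReal_pow, hs2]
        push_cast
        ring
      rw [h4] at h3
      refine h3.congr' ?_
      filter_upwards [hmem] with z hz
      rw [w2_S_sq (w2_out_H h hz)]
    by_cases hs0 : s = 0
    · rw [hs0, Complex.ofReal_zero, zero_mul]
      rw [tendsto_zero_iff_norm_tendsto_zero] at hsq ⊢
      have h5 : (fun z => ‖w2_J (XC l n z) - XC l n z‖) = fun z =>
          Real.sqrt ‖(w2_J (XC l n z) - XC l n z) ^ 2 + (s : ℂ) ^ 2‖ := by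
        funext z
        rw [hs0, Complex.ofReal_zero, zero_pow two_ne_zero, add_zero, norm_pow,
          Real.sqrt_sq (norm_nonneg _)]
      rw [h5]
      have h6 := (Real.continuous_sqrt.tendsto 0).comp hsq
      rw [Real.sqrt_zero] at h6
      exact h6
    · -- `s ≠ 0`
      have hlt : |X l n x0| < 1 := by
        rcases lt_or_eq_of_le h1 with h2 | h2
        · exact h2
        · exfalso
          apply hs0
          have : s ^ 2 = 0 := by
            rw [hs2, ← sq_abs, h2]; ring
          exact pow_eq_zero_iff two_ne_zero |>.1 this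
      have hsg := w2_sign h hlt
      rw [tendsto_iff_norm_sub_tendsto_zero]
      have h7 : Tendsto (fun z => ‖(w2_J (XC l n z) - XC l n z) ^ 2 + (s : ℂ) ^ 2‖ / |s|)
          (𝓝[w2_H] (x0 : ℂ)) (𝓝 0) := by
        have := (tendsto_zero_iff_norm_tendsto_zero.1 hsq).div_const |s|
        rwa [zero_div] at this
      refine squeeze_zero' (Eventually.of_forall fun _ => norm_nonneg _) ?_ h7
      filter_upwards [hmem, hsg] with z hz hz2
      rw [← hs] at hz2
      set S := w2_J (XC l n z) - XC l n z with hSdef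
      have him : (XC l n z).im ≠ 0 := by
        intro h0; rw [h0, zero_mul] at hz2; exact lt_irrefl _ hz2
      have h8 : 0 < (XC l n z).im * S.im := w2_S_sgn (w2_out_H h hz) him
      have h9 : 0 < S.im * s := by
        have : 0 < ((XC l n z).im * S.im) * ((XC l n z).im * s) := mul_pos h8 hz2
        have h10 : ((XC l n z).im * S.im) * ((XC l n z).im * s) =
            (XC l n z).im ^ 2 * (S.im * s) := by ring
        rw [h10] at this
        have h11 : 0 < (XC l n z).im ^ 2 := by positivity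
        exact (mul_pos_iff_of_pos_left h11).1 this
      have hfac : S ^ 2 + (s : ℂ) ^ 2 = (S - (s : ℂ) * I) * (S + (s : ℂ) * I) := by
        have : (S - (s : ℂ) * I) * (S + (s : ℂ) * I) = S ^ 2 - (s : ℂ) ^ 2 * I ^ 2 := by ring
        rw [this, Complex.I_sq]
        ring
      have hbig : |s| ≤ ‖S + (s : ℂ) * I‖ := by
        refine le_trans ?_ (Complex.abs_im_le_norm _)
        have : (S + (s : ℂ) * I).im = S.im + s := by simp
        rw [this]
        apply sq_le_sq.1
        nlinarith [sq_nonneg S.im]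
      rw [hfac, norm_mul, le_div_iff₀ (abs_pos.2 hs0)]
      exact mul_le_mul_of_nonneg_left hbig (norm_nonneg _)

/-- the continuous extension of `J ∘ X_n` -/
def w2_U (l : ℝ) (n : ℕ) (z : ℂ) : ℂ :=
  if 0 < z.im then w2_J (XC l n z) else w2_E l n z.re

theorem w2_U_pos {z : ℂ} (hz : 0 < z.im) : w2_U l n z = w2_J (XC l n z) := by
  unfold w2_U; rw [if_pos hz]

theorem w2_U_npos {z : ℂ} (hz : ¬ 0 < z.im) : w2_U l n z = w2_E l n z.re := by
  unfold w2_U; rw [if_neg hz]

theorem w2_U_cont (h : w2_Inp l n) : Continuous (w2_U l n) := by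
  rw [continuous_iff_continuousAt]
  intro z0
  have hEre : Continuous fun z : ℂ => w2_E l n z.re := (w2_E_cont h).comp Complex.continuous_re
  rcases lt_trichotomy 0 z0.im with h0 | h0 | h0
  · have h1 : ContinuousAt (fun z => w2_J (XC l n z)) z0 :=
      ContinuousAt.comp (f := XC l n) (g := w2_J) (w2_J_diff (w2_out_H h h0)).continuousAt
        (w2_XC_diff l n).continuous.continuousAt
    refine h1.congr ?_
    have h2 : ∀ᶠ z : ℂ in 𝓝 z0, 0 < z.im :=
      Complex.continuous_im.continuousAt.eventually_mem (Ioi_mem_nhds h0)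
    filter_upwards [h2] with z hz
    rw [w2_U_pos hz]
  · have hz0 : z0 = (z0.re : ℂ) := by
      apply Complex.ext
      · simp
      · simp [← h0]
    have hU0 : w2_U l n z0 = w2_E l n z0.re := w2_U_npos (by rw [← h0]; exact lt_irrefl _)
    show Tendsto (w2_U l n) (𝓝 z0) (𝓝 (w2_U l n z0))
    rw [hU0]
    have hcov : (w2_H ∪ w2_Hᶜ : Set ℂ) = Set.univ := Set.union_compl_self _
    rw [← nhdsWithin_univ z0, ← hcov, nhdsWithin_union, tendsto_sup]
    constructor
    · have h1 := w2_lim h z0.re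
      rw [← hz0] at h1
      refine h1.congr' ?_
      filter_upwards [self_mem_nhdsWithin] with z hz
      rw [w2_U_pos hz]
    · have h1 : Tendsto (fun z : ℂ => w2_E l n z.re) (𝓝[w2_Hᶜ] z0) (𝓝 (w2_E l n z0.re)) :=
        (hEre.tendsto z0).mono_left nhdsWithin_le_nhds
      refine h1.congr' ?_
      filter_upwards [self_mem_nhdsWithin] with z hz
      rw [w2_U_npos hz]
  · have h1 : ContinuousAt (fun z : ℂ => w2_E l n z.re) z0 := hEre.continuousAt
    refine h1.congr ?_
    have h2 : ∀ᶠ z : ℂ in 𝓝 z0, z.im < 0 :=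
      Complex.continuous_im.continuousAt.eventually_mem (Iio_mem_nhds h0)
    filter_upwards [h2] with z hz
    rw [w2_U_npos (by linarith)]

theorem w2_U_ne (h : w2_Inp l n) (z : ℂ) : w2_U l n z ≠ 0 := by
  by_cases hz : 0 < z.im
  · rw [w2_U_pos hz]
    have := w2_J_norm (w2_out_H h hz)
    intro h0
    rw [h0, norm_zero] at this
    linarith
  · rw [w2_U_npos hz]
    exact Complex.exp_ne_zero _

/-- the continuous logarithm -/
theorem w2_G (h : w2_Inp l n) : ∃ G : ℂ → ℂ, Continuous G ∧ (∀ z, Complex.exp (G z) = w2_U l n z) ∧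
    ∀ x : ℝ, G x = (tau l n x : ℂ) + (Th l n x : ℂ) * I := by
  have hb : Complex.exp ((tau l n 3 : ℂ) + (Th l n 3 : ℂ) * I) =
      (⟨w2_U l n, w2_U_cont h⟩ : C(ℂ, ℂ)) ((3 : ℝ) : ℂ) := by
    show _ = w2_U l n ((3 : ℝ) : ℂ)
    rw [w2_U_npos (by simp)]
    rw [Complex.ofReal_re]
    rfl
  obtain ⟨G, ⟨hG1, hG2⟩, -⟩ := Complex.isCoveringMapOn_exp.existsUnique_continuousMap_lifts
    (⟨w2_U l n, w2_U_cont h⟩ : C(ℂ, ℂ)) hb (fun a => w2_U_ne h a)
  refine ⟨G, G.continuous, fun z => congrFun hG2 z, ?_⟩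
  have hexp : ∀ z, Complex.exp (G z) = w2_U l n z := fun z => congrFun hG2 z
  -- the difference on the real line
  set d : ℝ → ℂ := fun x => G x - ((tau l n x : ℂ) + (Th l n x : ℂ) * I) with hd
  have hdc : Continuous d := by
    apply (G.continuous.comp Complex.continuous_ofReal).sub
    exact (Complex.continuous_ofReal.comp (w2_tau_cont h)).add
      ((Complex.continuous_ofReal.comp h.Thc).mul continuous_const)
  have hde : ∀ x, Complex.exp (d x) = 1 := by
    intro x
    rw [hd]
    simp only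
    rw [Complex.exp_sub, hexp, w2_U_npos (by simp), Complex.ofReal_re]
    exact div_self (Complex.exp_ne_zero _)
  have hre : ∀ x, (d x).re = 0 := by
    intro x
    have h1 := congrArg norm (hde x)
    rw [Complex.norm_exp, norm_one] at h1
    exact Real.exp_eq_one_iff _ |>.1 h1
  have hcos : ∀ x, Real.cos (d x).im = 1 := by
    intro x
    have h1 := congrArg Complex.re (hde x)
    rw [Complex.exp_re, hre x, Real.exp_zero, one_mul, Complex.one_re] at h1
    exact h1
  have him0 : (d 3).im = 0 := by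
    have : d 3 = 0 := by
      show G ((3 : ℝ) : ℂ) - ((tau l n 3 : ℂ) + (Th l n 3 : ℂ) * I) = 0
      rw [hG1, sub_self]
    rw [this, Complex.zero_im]
  have himc : Continuous fun x => (d x).im := Complex.continuous_im.comp hdc
  have hbound : ∀ x, |(d x).im| < Real.pi := by
    intro x
    by_contra hcon
    rw [not_lt] at hcon
    have hpi := Real.pi_pos
    -- the absolute value takes the value pi
    have h1 : ∃ y, |(d y).im| = Real.pi := by
      have hpre : IsPreconnected (Set.univ : Set ℝ) := isPreconnected_univ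
      have := hpre.intermediate_value (Set.mem_univ 3) (Set.mem_univ x)
        (f := fun x => |(d x).im|) himc.abs.continuousOn
      obtain ⟨y, -, hy⟩ := this ⟨by simp only [him0, abs_zero]; exact hpi.le, hcon⟩
      exact ⟨y, hy⟩
    obtain ⟨y, hy⟩ := h1
    have h2 := hcos y
    rw [← Real.cos_abs, hy, Real.cos_pi] at h2
    linarith
  intro x
  have h1 := abs_lt.1 (hbound x)
  have h2 : (d x).im = 0 :=
    (Real.cos_eq_one_iff_of_lt_of_lt (by linarith [Real.pi_pos]) (by linarith [Real.pi_pos])).1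
      (hcos x)
  have h3 : d x = 0 := Complex.ext (hre x) h2
  exact sub_eq_zero.1 h3

end

end Pool.Agent.Helper36.CV
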